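import Pool.Agent.H15.LU.Final

set_option autoImplicit false

/-!
# Lipschitz unimodal germs and adjacency to `J_{10}` and `J_{3,0}`: the answer is no

The germ `f₀ = y z² + x² z + x y⁵` of three variables has an isolated singularity, it deforms to
`J_{10}` and does not deform to `J_{3,0}`, but its Lipschitz modality is at least `2`. So the
question whether a germ is Lipschitz unimodal if and only if it deforms to `J_{10}` and does not
deform to `J_{3,0}` has a negative answer.
-/

namespace Pool.Agent.Results.MP_812e67_ag.LipschitzUnimodal

open Pool.Agent.H15.LU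

theorem result : ¬ Question ∧ Isolated f₀ ∧ DeformsTo f₀ (J10 1) ∧ ¬ DeformsTo f₀ (J30 1) ∧
    ∀ k, 7 ≤ k → 2 ≤ Lmod k f₀ :=
  Final.main

end Pool.Agent.Results.MP_812e67_ag.LipschitzUnimodal
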